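import Pool.Agent.Helper8.SE.Sheet

set_option autoImplicit false

open scoped ContDiff
open Set Filter Topology

namespace Pool.Agent.Helper76.SE

open Pool.Agent.Helper8.SE

theorem stLOGW : ST_STEPF → ST_LOGW := by
  intro hS κ s₀ Λ hκ hs₀ hΛ
  obtain ⟨S, hSs, hSm, hS0, hS1, hSz, hSo, hSl⟩ := hS κ hκ
  let W : ℝ → ℝ := fun t => if 0 < t then S (Real.log (t / s₀) / Λ) else 0
  have hpos : ∀ t, 0 < t → W t = S (Real.log (t / s₀) / Λ) := fun t ht => if_pos ht
  have hneg : ∀ t, ¬ 0 < t → W t = 0 := fun t ht => if_neg ht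
  have hzero : ∀ t ≤ s₀, W t = 0 := by
    intro t ht
    by_cases h : 0 < t
    · rw [hpos t h]
      apply hSz
      apply div_nonpos_of_nonpos_of_nonneg _ hΛ.le
      apply Real.log_nonpos (by positivity)
      exact (div_le_one hs₀).2 ht
    · exact hneg t h
  have hnn : ∀ t, 0 ≤ W t := by
    intro t
    by_cases h : 0 < t
    · rw [hpos t h]; exact hS0 _
    · rw [hneg t h]
  have hle : ∀ t, W t ≤ 1 := by
    intro t
    by_cases h : 0 < t
    · rw [hpos t h]; exact hS1 _
    · rw [hneg t h]; exact zero_le_one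
  refine ⟨W, ⟨?_, ?_, hnn, hle, hzero, ?_, ?_⟩⟩
  · rw [contDiff_iff_contDiffAt]
    intro t
    by_cases h : t < s₀
    · have h1 : W =ᶠ[𝓝 t] fun _ => 0 := by
        filter_upwards [Iio_mem_nhds h] with x hx
        exact hzero x (le_of_lt hx)
      exact contDiffAt_const.congr_of_eventuallyEq h1
    · have ht : 0 < t := lt_of_lt_of_le hs₀ (not_lt.1 h)
      have h1 : W =ᶠ[𝓝 t] fun x => S (Real.log (x / s₀) / Λ) := by
        filter_upwards [Ioi_mem_nhds ht] with x hx
        exact hpos x hx
      refine ContDiffAt.congr_of_eventuallyEq ?_ h1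
      have h2 : ContDiffAt ℝ ∞ (fun x : ℝ => Real.log (x / s₀) / Λ) t := by
        refine ContDiffAt.div_const ?_ _
        refine ContDiffAt.log ?_ (by positivity)
        exact contDiffAt_id.div_const _
      exact hSs.contDiffAt.comp t h2
  · intro s t hst
    by_cases h : 0 < s
    · have ht : 0 < t := lt_of_lt_of_le h hst
      rw [hpos s h, hpos t ht]
      apply hSm
      gcongr
    · rw [hneg s h]
      exact hnn t
  · intro t ht
    have h0 : 0 < s₀ * Real.exp Λ := by positivity
    have ht0 : 0 < t := lt_of_lt_of_le h0 ht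
    rw [hpos t ht0]
    apply hSo
    rw [one_le_div hΛ, Real.le_log_iff_exp_le (by positivity), le_div_iff₀ hs₀]
    linarith [mul_comm s₀ (Real.exp Λ)]
  · intro s t hs hst
    have ht : 0 < t := lt_of_lt_of_le hs hst
    rw [hpos s hs, hpos t ht]
    have h1 := hSl (Real.log (t / s₀) / Λ) (Real.log (s / s₀) / Λ)
    have h2 : Real.log (t / s₀) / Λ - Real.log (s / s₀) / Λ = Real.log (t / s) / Λ := by
      rw [Real.log_div ht.ne' hs₀.ne', Real.log_div hs.ne' hs₀.ne', Real.log_div ht.ne' hs.ne']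
      ring
    rw [h2] at h1
    have h3 : 0 ≤ Real.log (t / s) := Real.log_nonneg ((one_le_div hs).2 hst)
    rw [abs_of_nonneg (div_nonneg h3 hΛ.le)] at h1
    have h4 : Real.log (t / s) ≤ (t - s) / s := by
      have := Real.log_le_sub_one_of_pos (show 0 < t / s by positivity)
      have h5 : t / s - 1 = (t - s) / s := by field_simp
      rwa [h5] at this
    calc S (Real.log (t / s₀) / Λ) - S (Real.log (s / s₀) / Λ)
        ≤ (1 + κ) * (Real.log (t / s) / Λ) := (le_abs_self _).trans h1
      _ = (1 + κ) / Λ * Real.log (t / s) := by ring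
      _ ≤ (1 + κ) / Λ * ((t - s) / s) := by gcongr

end Pool.Agent.Helper76.SE
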